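import Pool.Agent.N20.EN.Stm
import Pool.Agent.Y63.NV.Final

/-!
# EN/BRQ: the two bases of the Brauer quotient, orbits of an overgroup
-/

set_option autoImplicit false

open scoped Classical BigOperators

noncomputable section

namespace Pool.Agent.N441.ENBRQ

open Pool.Agent.Y63.NV Pool.Agent.Y77.NV Pool.Agent.Y63.NV.B77 Pool.Agent.N20.EN

section lin

variable {F E X O : Type} [Field F] [AddCommGroup E] [Module F E] [Fintype X] [Fintype O]

/-- the sum over a fibre -/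
def fs (q : X → O) (b : X → E) (o : O) : E := ∑ φ ∈ Finset.univ.filter (fun φ => q φ = o), b φ

theorem fs_sum (q : X → O) (b : X → E) (c : O → F) :
    ∑ o, c o • fs q b o = ∑ φ, c (q φ) • b φ := by
  rw [← Finset.sum_fiberwise Finset.univ q (fun φ => c (q φ) • b φ)]
  refine Finset.sum_congr rfl fun o _ => ?_
  rw [fs, Finset.smul_sum]
  refine Finset.sum_congr rfl fun φ hφ => ?_
  rw [(Finset.mem_filter.1 hφ).2]

theorem fs_li (q : X → O) (hq : Function.Surjective q) (b : X → E) (hb : LinearIndependent F b) :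
    LinearIndependent F (fs q b) := by
  rw [Fintype.linearIndependent_iff]
  intro c hc o
  rw [fs_sum] at hc
  obtain ⟨φ, rfl⟩ := hq o
  exact Fintype.linearIndependent_iff.1 hb (fun φ => c (q φ)) hc φ

theorem fs_single (q : X → O) (b : X → E) (o : O) :
    ∃ a : O → F, fs q b o = ∑ φ, a (q φ) • b φ := by
  obtain ⟨a, ha1, ha2⟩ : ∃ a : O → F, a o = 1 ∧ ∀ o', o' ≠ o → a o' = 0 :=
    ⟨fun o' => if o' = o then 1 else 0, if_pos rfl, fun o' h => if_neg h⟩
  refine ⟨a, ?_⟩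
  rw [← fs_sum q b a, Finset.sum_eq_single o]
  · rw [ha1, one_smul]
  · intro o' _ h
    rw [ha2 o' h, zero_smul]
  · intro h
    exact absurd (Finset.mem_univ _) h

omit [Fintype O] in
theorem fs_map (T : Module.End F E) (q : X → O) (b : X → E) (l : O → F)
    (hT : ∀ φ, T (b φ) = l (q φ) • b φ) (o : O) : T (fs q b o) = l o • fs q b o := by
  rw [fs, map_sum, Finset.smul_sum]
  refine Finset.sum_congr rfl fun φ hφ => ?_
  rw [hT, (Finset.mem_filter.1 hφ).2]

end lin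

section act

variable {F : Type} [Field F] {p : ℕ} {Γ : Type} [Group Γ] {N M H : Subgroup Γ} {z : Γ → F}

/-- the action of an element of `H` on the irreducible traces -/
def ac (hO : ExtO p N M H z) (h : H) (φ : Irr F N) : Irr F N := B77.act (cj N H hO.normN h) φ

theorem ac_one (hO : ExtO p N M H z) (φ : Irr F N) : ac hO 1 φ = φ := act_one N H hO.normN φ

theorem ac_mul (hO : ExtO p N M H z) (g h : H) (φ : Irr F N) :
    ac hO (g * h) φ = ac hO g (ac hO h φ) := act_mul N H hO.normN g h φ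

theorem ac_apply (hO : ExtO p N M H z) (h : H) (φ : Irr F N) (x : N) :
    (ac hO h φ).1 x = φ.1 ((cj N H hO.normN h).symm x) := rfl

theorem ac_inv (hO : ExtO p N M H z) (h : H) (φ : Irr F N) (hφ : IsInvUnder M φ.1) :
    IsInvUnder M (ac hO h φ).1 := by
  intro m hm x y hxy
  refine hφ ((h : Γ)⁻¹ * m * h) ?_ _ _ ?_
  · have h1 := hO.normM (h : Γ)⁻¹ (H.inv_mem h.2) m hm
    rwa [inv_inv] at h1
  · rw [cj_symm_coe, cj_symm_coe, hxy]
    group

/-- the action on the invariant traces -/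
def gX (hO : ExtO p N M H z) (h : H) (φ : {φ : Irr F N // IsInvUnder M φ.1}) :
    {φ : Irr F N // IsInvUnder M φ.1} := ⟨ac hO h φ.1, ac_inv hO h φ.1 φ.2⟩

theorem gX_one (hO : ExtO p N M H z) (φ : {φ : Irr F N // IsInvUnder M φ.1}) : gX hO 1 φ = φ :=
  Subtype.ext (ac_one hO φ.1)

theorem gX_mul (hO : ExtO p N M H z) (g h : H) (φ : {φ : Irr F N // IsInvUnder M φ.1}) :
    gX hO (g * h) φ = gX hO g (gX hO h φ) := Subtype.ext (ac_mul hO g h φ.1)

/-- the action as a permutation -/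
def gE (hO : ExtO p N M H z) (h : H) :
    {φ : Irr F N // IsInvUnder M φ.1} ≃ {φ : Irr F N // IsInvUnder M φ.1} where
  toFun := gX hO h
  invFun := gX hO h⁻¹
  left_inv φ := by rw [← gX_mul, inv_mul_cancel, gX_one]
  right_inv φ := by rw [← gX_mul, mul_inv_cancel, gX_one]

/-- the orbits -/
def St (hO : ExtO p N M H z) : Setoid {φ : Irr F N // IsInvUnder M φ.1} where
  r φ ψ := ∃ h : H, gX hO h φ = ψ
  iseqv :=
    { refl := fun φ => ⟨1, gX_one hO φ⟩
      symm := by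
        rintro φ _ ⟨h, rfl⟩
        exact ⟨h⁻¹, by rw [← gX_mul, inv_mul_cancel, gX_one]⟩
      trans := by
        rintro φ _ _ ⟨h, rfl⟩ ⟨g, rfl⟩
        exact ⟨g * h, gX_mul hO g h φ⟩ }

theorem S0_conjH (hO : ExtO p N M H z) {x : Γ} (hx : x ∈ S0 p N M) {h : Γ} (hh : h ∈ H) :
    h * x * h⁻¹ ∈ S0 p N M := by
  refine ⟨hO.normN h hh x hx.1, ?_, ?_⟩
  · have h1 : orderOf (h * x * h⁻¹) = orderOf x := by
      have h2 := orderOf_injective (MulAut.conj h).toMonoidHom (MulAut.conj h).injective x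
      simpa using h2
    rw [h1]
    exact hx.2.1
  · intro k hk
    have hk' : h⁻¹ * k * h ∈ M := by
      have h1 := hO.normM h⁻¹ (H.inv_mem hh) k hk
      rwa [inv_inv] at h1
    obtain ⟨n, hn, h2⟩ := hx.2.2 _ hk'
    refine ⟨h * n * h⁻¹, hO.normN h hh n hn, ?_⟩
    calc k * (h * x * h⁻¹) * k⁻¹ = h * (h⁻¹ * k * h * x * (h⁻¹ * k * h)⁻¹) * h⁻¹ := by group
      _ = h * (n * x * n⁻¹) * h⁻¹ := by rw [h2]
      _ = _ := by group

theorem res_ac (hO : ExtO p N M H z) (h : H) (φ : Irr F N) (x : Γ) :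
    res p N M (ac hO h φ).1 (h * x * (h : Γ)⁻¹) = res p N M φ.1 x := by
  by_cases hx : x ∈ S0 p N M
  · have hx' := S0_conjH hO hx h.2
    rw [res, dif_pos hx', res, dif_pos hx, ac_apply]
    refine congrArg φ.1 (Subtype.ext ?_)
    rw [cj_symm_coe]
    change (h : Γ)⁻¹ * (h * x * (h : Γ)⁻¹) * h = x
    group
  · have hx' : ¬ (h : Γ) * x * (h : Γ)⁻¹ ∈ S0 p N M := fun h1 => hx (by
      have h2 := S0_conjH hO h1 (H.inv_mem h.2)
      have h3 : (h : Γ)⁻¹ * (h * x * (h : Γ)⁻¹) * (h : Γ)⁻¹⁻¹ = x := by group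
      rwa [h3] at h2)
    rw [res, dif_neg hx', res, dif_neg hx]

theorem lam_ac (hO : ExtO p N M H z) (h : H) (φ : Irr F N) (l l' : F)
    (h0 : ∃ x, φ.1 x ≠ 0) (hl : ∀ x : N, ∑ᶠ g : N, z g * φ.1 (g * x) = l * φ.1 x)
    (hl' : ∀ x : N, ∑ᶠ g : N, z g * (ac hO h φ).1 (g * x) = l' * (ac hO h φ).1 x) : l' = l := by
  obtain ⟨y, hy⟩ := h0
  have h1 := hl' (cj N H hO.normN h y)
  rw [ac_apply, MulEquiv.symm_apply_apply,
    ← finsum_comp_equiv (cj N H hO.normN h).toEquiv] at h1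
  have h2 : ∀ g : N, z ((cj N H hO.normN h).toEquiv g) *
      (ac hO h φ).1 ((cj N H hO.normN h).toEquiv g * cj N H hO.normN h y) = z g * φ.1 (g * y) := by
    intro g
    have h3 : (cj N H hO.normN h).toEquiv g = cj N H hO.normN h g := rfl
    rw [h3, ← map_mul, ac_apply, MulEquiv.symm_apply_apply, cj_coe, hO.inv h h.2]
  rw [finsum_congr h2, hl] at h1
  exact (mul_right_cancel₀ hy h1).symm

theorem cjF_iff (hO : ExtO p N M H z) (h : H) (φ : Irr F N) (ψ : N → F) :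
    CjF (h : Γ) φ.1 ψ ↔ (ac hO h φ).1 = ψ := by
  constructor
  · intro h1
    funext y
    rw [ac_apply]
    refine (h1 _ y ?_).symm
    rw [cj_symm_coe]
    group
  · rintro rfl x y hxy
    rw [ac_apply]
    refine congrArg φ.1 (Subtype.ext ?_)
    rw [cj_symm_coe, hxy]
    group

end act

theorem brqo (h1 : S_IRR) (h2 : S_PPT) (h3 : S_SPAN) (h4 : S_SCHUR) : S_BRQO := by
  intro p _ F _ _ _ Γ _ _ N M H z hO c
  have hE := hO.ext
  obtain ⟨R, hRH, hRp, hsup⟩ := supl p M N hE.norm hE.pq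
  have hz : IsClassFun (fun g : N => z g) := fun g x => hE.inv g (hE.le g.2) x
  have h5 : ∀ φ : {φ : Irr F N // IsInvUnder M φ.1}, ∃ l : F, ∀ x : N,
      ∑ᶠ g : N, z g * φ.1.1 (g * x) = l * φ.1.1 x := by
    intro φ
    obtain ⟨_, B, _, hB⟩ := h4 F N φ.1.1 φ.1.2
    exact ⟨B (fun g : N => z g), hB _ hz⟩
  choose lam hlam using h5
  have hne : ∀ φ : Irr F N, ∃ x, φ.1 x ≠ 0 := fun φ => (h4 F N φ.1 φ.2).1
  have : Finite (Irr F N) := irr_fin h1
  have : Fintype {φ : Irr F N // IsInvUnder M φ.1} := Fintype.ofFinite _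
  have : Finite (Quotient (St hO)) := Quotient.finite _
  have : Fintype (Quotient (St hO)) := Fintype.ofFinite _
  have hC := claimC hE h1 h2 h3 hRH hRp hsup
  have hT : ∀ φ : {φ : Irr F N // IsInvUnder M φ.1}, Top p z (S0 p N M) (res p N M φ.1.1) =
      lam φ • res p N M φ.1.1 := by
    intro φ
    funext x
    change Tfun p z (S0 p N M) (res p N M φ.1.1) x = lam φ * res p N M φ.1.1 x
    by_cases hx : x ∈ S0 p N M
    · rw [Tfun, if_pos hx, claimB hE h2 φ.1 φ.2 hx, hlam, res, dif_pos hx]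
    · rw [Tfun, if_neg hx, res, dif_neg hx, mul_zero]
  have hlg : ∀ (h : H) (φ : {φ : Irr F N // IsInvUnder M φ.1}), lam (gX hO h φ) = lam φ :=
    fun h φ => lam_ac hO h φ.1 _ _ (hne φ.1) (hlam φ) (hlam (gX hO h φ))
  let q : {φ : Irr F N // IsInvUnder M φ.1} → Quotient (St hO) := fun φ => Quotient.mk (St hO) φ
  have hq : Function.Surjective q := Quotient.mk_surjective
  have hqg : ∀ h φ, q (gX hO h φ) = q φ := fun h φ =>
    (Quotient.sound (s := St hO) ⟨h, rfl⟩ : q φ = q (gX hO h φ)).symm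
  let b : {φ : Irr F N // IsInvUnder M φ.1} → Γ → F := fun φ => res p N M φ.1.1
  let lamO : Quotient (St hO) → F := Quotient.lift lam (by
    rintro φ _ ⟨h, rfl⟩
    exact (hlg h φ).symm)
  have hbg : ∀ (h : H) (φ : {φ : Irr F N // IsInvUnder M φ.1}) (x : Γ),
      b (gX hO h φ) (h * x * (h : Γ)⁻¹) = b φ x := fun h φ x => res_ac hO h φ.1 x
  have hre : ∀ (a : {φ : Irr F N // IsInvUnder M φ.1} → F) (h : H) (x : Γ),
      (∑ φ, a φ • b φ) (h * x * (h : Γ)⁻¹) = (∑ φ, a (gX hO h φ) • b φ) x := by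
    intro a h x
    rw [Finset.sum_apply, Finset.sum_apply, ← (gE hO h).sum_comp]
    refine Finset.sum_congr rfl fun φ _ => ?_
    change a (gX hO h φ) * b (gX hO h φ) (h * x * (h : Γ)⁻¹) = a (gX hO h φ) * b φ x
    rw [hbg]
  have hV : VS (F := F) (S0 p N M) H = Submodule.span F (Set.range (fs q b)) := by
    apply le_antisymm
    · intro θ hθ
      have hθM : θ ∈ VS (F := F) (S0 p N M) M := ⟨hθ.1, fun j hj x => hθ.2 j (hO.le hj) x⟩
      have h6 := claimD hE h1 h3 hRH hRp hsup θ hθM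
      obtain ⟨a, ha⟩ := (Submodule.mem_span_range_iff_exists_fun F).1 h6
      have ha' : ∑ φ, a φ • b φ = θ := ha
      have hag : ∀ (h : H) φ, a (gX hO h φ) = a φ := by
        intro h φ
        have h7 : ∑ φ, (a (gX hO h φ) - a φ) • b φ = 0 := by
          funext x
          have h8 := hre a h x
          rw [ha', hθ.2 h h.2 x] at h8
          simp only [sub_smul]
          rw [Finset.sum_sub_distrib, Pi.sub_apply, ← h8, ha', sub_self]
          rfl
        exact sub_eq_zero.1 (Fintype.linearIndependent_iff.1 hC _ h7 φ)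
      let cO : Quotient (St hO) → F := Quotient.lift a (by
        rintro φ _ ⟨h, rfl⟩
        exact (hag h φ).symm)
      have h9 : θ = ∑ o, cO o • fs q b o := by
        rw [fs_sum, ← ha']
        rfl
      rw [h9]
      exact Submodule.sum_mem _ fun o _ => Submodule.smul_mem _ _ (Submodule.subset_span ⟨o, rfl⟩)
    · rw [Submodule.span_le]
      rintro _ ⟨o, rfl⟩
      obtain ⟨a, h6⟩ := fs_single (F := F) q b o
      refine ⟨fun x hx => ?_, fun j hj x => ?_⟩
      · rw [h6, Finset.sum_apply]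
        refine Finset.sum_eq_zero fun φ _ => ?_
        change _ * res p N M φ.1.1 x = 0
        rw [res, dif_neg hx, mul_zero]
      · rw [h6]
        have h7 := hre (fun φ => a (q φ)) ⟨j, hj⟩ x
        simp only [hqg] at h7
        exact h7
  have hTO : ∀ o, Top p z (S0 p N M) (fs q b o) = lamO o • fs q b o :=
    fs_map (Top p z (S0 p N M)) q b lamO hT
  have h6 : gm p z (S0 p N M) H c = Nat.card {o // lamO o = c} :=
    count (Top p z (S0 p N M)) (VS (S0 p N M) H) (fs q b) (fs_li q hq b hC) hV lamO hTO c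
  rw [h6, OrbL]
  have hlc : ∀ φ : TrM N M z c, lam ⟨⟨φ.1, φ.2.1⟩, φ.2.2.1⟩ = c := by
    intro φ
    obtain ⟨x, hx⟩ := hne ⟨φ.1, φ.2.1⟩
    have h7 := φ.2.2.2 x
    have h8 := hlam ⟨⟨φ.1, φ.2.1⟩, φ.2.2.1⟩ x
    exact mul_right_cancel₀ hx (h8.symm.trans h7)
  let e : (Quot fun φ φ' : TrM N M z c => ∃ h ∈ H, CjF h φ.1 φ'.1) → {o // lamO o = c} :=
    Quot.lift (fun φ => ⟨q ⟨⟨φ.1, φ.2.1⟩, φ.2.2.1⟩, hlc φ⟩) (by
      rintro φ φ' ⟨h, hh, hc⟩
      apply Subtype.ext
      refine Quotient.sound (s := St hO) ⟨⟨h, hh⟩, ?_⟩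
      apply Subtype.ext
      apply Subtype.ext
      exact (cjF_iff hO ⟨h, hh⟩ ⟨φ.1, φ.2.1⟩ φ'.1).1 hc)
  refine Nat.card_congr (Equiv.ofBijective e ⟨?_, ?_⟩)
  · intro u v
    refine Quot.induction_on₂ u v fun φ φ' huv => ?_
    have h7 : q ⟨⟨φ.1, φ.2.1⟩, φ.2.2.1⟩ = q ⟨⟨φ'.1, φ'.2.1⟩, φ'.2.2.1⟩ := congrArg Subtype.val huv
    obtain ⟨h, hh⟩ := Quotient.exact (s := St hO) h7
    refine Quot.sound ⟨h, h.2, ?_⟩
    refine (cjF_iff hO h ⟨φ.1, φ.2.1⟩ φ'.1).2 ?_
    exact congrArg (fun t => t.1.1) hh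
  · rintro ⟨o, ho⟩
    obtain ⟨φ, rfl⟩ := hq o
    refine ⟨Quot.mk _ ⟨φ.1.1, φ.1.2, φ.2, fun x => ?_⟩, rfl⟩
    have h7 : lam φ = c := ho
    rw [hlam, h7]

/-- BRQ -/
theorem BRQO : S_BRQO :=
  brqo Pool.Agent.Y914.NV.irr Pool.Agent.Y705.NV.ppt span' schur'

end Pool.Agent.N441.ENBRQ
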