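import Pool.Agent.N208.BT.Stm5

set_option autoImplicit false
set_option linter.unusedSectionVars false

/-!
# All full subalgebras have the same derived algebra on the parts (statement G_SJ)
-/

open Module Matrix

noncomputable section

namespace Pool.Agent.N441.BGSJ

open Pool.Agent.Y102 Pool.Agent.W516.DR Pool.Agent.H204R3.GP Pool.Agent.W516.KC
  Pool.Agent.H204R3.SP Pool.Agent.TH119.MX Pool.Agent.R917 Pool.Agent.N208.AM Pool.Agent.N208.AD
  Pool.Agent.N208.BT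

variable {g : ℕ} {A : AbVar g}

theorem c_smul {N : ℕ} (c : ℂ) (x : VN N) : c • x = c.re • x + c.im • (Complex.I • x) := by
  ext i
  simp only [Pi.smul_apply, Pi.add_apply, smul_eq_mul, Complex.real_smul]
  conv_lhs => rw [← Complex.re_add_im c]
  ring

/-- a real linear map which commutes with `i` is given by a matrix -/
theorem exists_mat {N : ℕ} (f : VN N →ₗ[ℝ] VN N)
    (hf' : ∀ x, f (Complex.I • x) = Complex.I • f x) :
    ∃ m : MN N, ∀ x, f x = m *ᵥ x := by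
  let F : VN N →ₗ[ℂ] VN N :=
    { toFun := f
      map_add' := fun a b => map_add f a b
      map_smul' := fun c x => by
        rw [RingHom.id_apply, c_smul, map_add, map_smul, map_smul, hf', ← c_smul] }
  refine ⟨LinearMap.toMatrix' F, fun x => ?_⟩
  rw [LinearMap.toMatrix'_mulVec]
  rfl

section

variable {z : Module.End ℚ A.H1} {al : ℝ} (h : HQ A z al) {N : ℕ} {sg : Fin N → ℝ}
  {φ : VN N →ₗ[ℝ] (Fin g → ℂ)} (w : WN A z al N sg φ)

include h w

theorem mat_NA {X : Module.End ℚ A.H1} (hX : X ∈ A.NA) :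
    ∃ m : MN N, ∀ x, A.ext X (φ x) = φ (m *ᵥ x) := by
  choose f hf' using w.stab X hX
  let F : VN N →ₗ[ℝ] VN N :=
    { toFun := f
      map_add' := fun a b => w.inj (by rw [← hf', map_add, map_add, map_add, hf', hf'])
      map_smul' := fun c a => w.inj (by
        rw [← hf', map_smul, map_smul, RingHom.id_apply, map_smul, hf']) }
  obtain ⟨m, hm⟩ := exists_mat F fun x => w.inj (by
    change φ (f (Complex.I • x)) = φ (Complex.I • f x)
    have hc : A.ext X * A.ext z = A.ext z * A.ext X := by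
      rw [← ext_mul, ← ext_mul, A.NA_comm hX h.mem]
    have hc' : A.ext X (A.ext z (φ x)) = A.ext z (A.ext X (φ x)) :=
      LinearMap.congr_fun hc (φ x)
    rw [← hf', w.mulI, map_smul, hc', hf', w.mulI])
  refine ⟨m, fun x => ?_⟩
  rw [← hm, hf']
  rfl

theorem mat_spE {y : Module.End ℝ (Fin g → ℂ)}
    (hy : y ∈ spE A (A.NA : Set (Module.End ℚ A.H1))) :
    ∃ m : MN N, ∀ x, y (φ x) = φ (m *ᵥ x) := by
  induction hy using Submodule.span_induction with
  | mem y hy =>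
    obtain ⟨X, hX, rfl⟩ := hy
    exact mat_NA h w hX
  | zero => exact ⟨0, fun x => by rw [LinearMap.zero_apply, Matrix.zero_mulVec, map_zero]⟩
  | add a b _ _ ha hb =>
    obtain ⟨m, hm⟩ := ha
    obtain ⟨m', hm'⟩ := hb
    exact ⟨m + m', fun x => by
      rw [LinearMap.add_apply, Matrix.add_mulVec, map_add, hm, hm']⟩
  | smul c a _ ha =>
    obtain ⟨m, hm⟩ := ha
    exact ⟨c • m, fun x => by
      rw [LinearMap.smul_apply, Matrix.smul_mulVec, map_smul, hm]⟩

end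

theorem spE_mono {S T : Submodule ℚ (Module.End ℚ A.H1)} (hST : S ≤ T) :
    spE A (S : Set (Module.End ℚ A.H1)) ≤ spE A (T : Set (Module.End ℚ A.H1)) :=
  Submodule.span_mono (by rintro y ⟨X, hX, rfl⟩; exact ⟨X, hST hX, rfl⟩)

theorem der_spE {𝔮 : Submodule ℚ (Module.End ℚ A.H1)} (hq : A.Full 𝔮) :
    spE A (der 𝔮 : Set (Module.End ℚ A.H1)) ≤ spE A (A.NA : Set (Module.End ℚ A.H1)) :=
  spE_mono (hq.der_le.trans hq.le)

theorem der_br {𝔮 : Submodule ℚ (Module.End ℚ A.H1)} (hq : A.Full 𝔮) :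
    ∀ x ∈ spE A (der 𝔮 : Set (Module.End ℚ A.H1)), ∀ y ∈ spE A (der 𝔮 : Set (Module.End ℚ A.H1)),
      x * y - y * x ∈ spE A (der 𝔮 : Set (Module.End ℚ A.H1)) :=
  spE_br fun X hX Y hY => Submodule.subset_span ⟨X, hq.der_le hX, Y, hq.der_le hY, rfl⟩

/-- the elements of the real span commute with the endomorphism algebra -/
theorem spE_comm {y : Module.End ℝ (Fin g → ℂ)}
    (hy : y ∈ spE A (A.NA : Set (Module.End ℚ A.H1))) {P : Module.End ℚ A.H1} (hP : P ∈ A.EA) :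
    y * A.ext P = A.ext P * y := by
  induction hy using Submodule.span_induction with
  | mem y hy =>
    obtain ⟨X, hX, rfl⟩ := hy
    rw [← ext_mul, ← ext_mul, A.NA_comm hX hP]
  | zero => rw [mul_zero, zero_mul]
  | add a b _ _ ha hb => rw [add_mul, mul_add, ha, hb]
  | smul c a _ ha => rw [smul_mul_assoc, mul_smul_comm, ha]

theorem trace_zero {N : ℕ} {sg : Fin N → ℝ} {𝔯 : Submodule ℝ (MN N)} (hr : RRs sg 𝔯) {m : MN N}
    (hm : m ∈ 𝔯) : m.trace = 0 := by
  have h1 := hr.perf hm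
  clear hm
  induction h1 using Submodule.span_induction with
  | mem y hy =>
    obtain ⟨X, _, Y, _, rfl⟩ := hy
    rw [Matrix.trace_sub, Matrix.trace_mul_comm, sub_self]
  | zero => rw [Matrix.trace_zero]
  | add a b _ _ ha hb => rw [Matrix.trace_add, ha, hb, add_zero]
  | smul c a _ ha => rw [Matrix.trace_smul, ha, smul_zero]

theorem full_mem (hSU : G_SU) {N : ℕ} {sg : Fin N → ℝ} (hsg : IsSg sg) (hmx : Mixed sg)
    {𝔯 : Submodule ℝ (MN N)} (hB : Big sg 𝔯) {m : MN N} (hs : IsSks sg m) (ht : m.trace = 0) :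
    m ∈ 𝔯 := by
  have h1 := hSU N sg hsg hmx m hs ht
  refine (Submodule.span_le.mpr ?_) h1
  rintro Y ⟨x, hx, rfl⟩
  exact hB x hx

/-- two places -/
theorem pair (hSU : G_SU) (hPA : G_PA) (hRR : G_RR) (hSL : G_SL) {z : Module.End ℚ A.H1}
    {Sg : Finset ℝ} (H : HG A z Sg) {al be : ℝ} (hal : al ∈ Sg) (hbe : be ∈ Sg) (hne : al ≠ be)
    {N N' : ℕ} {sg : Fin N → ℝ} {sg' : Fin N' → ℝ} {φ : VN N →ₗ[ℝ] (Fin g → ℂ)}
    {φ' : VN N' →ₗ[ℝ] (Fin g → ℂ)} (w : WN A z al N sg φ) (w' : WN A z be N' sg' φ')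
    {𝔮 : Submodule ℚ (Module.End ℚ A.H1)} (hq : A.Full 𝔮) {m : MN N} (hsk : IsSks sg m)
    (ht : m.trace = 0) : (m, (0 : MN N')) ∈ rN2 A (der 𝔮) φ φ' := by
  have hmx := (H.big al hal N sg φ w).1
  have hmx' := (H.big be hbe N' sg' φ' w').1
  have hB := (H.big al hal N sg φ w).2 𝔮 hq
  have hB' := (H.big be hbe N' sg' φ' w').2 𝔮 hq
  have hr := hRR g A z al (H.hq al hal) N sg φ w 𝔮 hq
  have hr' := hRR g A z be (H.hq be hbe) N' sg' φ' w' 𝔮 hq
  have k1 : ∀ p ∈ rN2 A (der 𝔮) φ φ', p.1 ∈ rN A (der 𝔮) φ := by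
    rintro p ⟨y, hy, h1, _⟩
    exact ⟨y, hy, h1⟩
  have k2 : ∀ p ∈ rN2 A (der 𝔮) φ φ', p.2 ∈ rN A (der 𝔮) φ' := by
    rintro p ⟨y, hy, _, h2⟩
    exact ⟨y, hy, h2⟩
  have hPR : PRs sg sg' (rN2 A (der 𝔮) φ φ') := by
    refine ⟨?_, fun p hp => hr.sk _ (k1 p hp), fun p hp => hr'.sk _ (k2 p hp),
      fun p hp => trace_zero hr (k1 p hp), fun p hp => trace_zero hr' (k2 p hp), ?_, ?_⟩
    · rintro p ⟨y, hy, h1, h2⟩ q ⟨y', hy', h1', h2'⟩
      refine ⟨y * y' - y' * y, der_br hq y hy y' hy', fun x => ?_, fun x => ?_⟩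
      · rw [LinearMap.sub_apply, Module.End.mul_apply, Module.End.mul_apply, h1', h1, h1, h1',
          ← map_sub, Matrix.mulVec_mulVec, Matrix.mulVec_mulVec, ← Matrix.sub_mulVec]
        rfl
      · rw [LinearMap.sub_apply, Module.End.mul_apply, Module.End.mul_apply, h2', h2, h2, h2',
          ← map_sub, Matrix.mulVec_mulVec, Matrix.mulVec_mulVec, ← Matrix.sub_mulVec]
        rfl
    · intro x hx
      obtain ⟨y, hy, h1⟩ := hB x hx
      obtain ⟨m', hm'⟩ := mat_spE (H.hq be hbe) w' (der_spE hq hy)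
      exact ⟨m', y, hy, h1, hm'⟩
    · intro x hx
      obtain ⟨y, hy, h1⟩ := hB' x hx
      obtain ⟨m', hm'⟩ := mat_spE (H.hq al hal) w (der_spE hq hy)
      exact ⟨m', y, hy, hm', h1⟩
  have h3 := (hPA N N' sg sg' w.isSg hmx w'.isSg hmx' _ hPR).resolve_right
    (hSL g A z Sg H al hal be hbe hne N N' sg sg' φ φ' w w' 𝔮 hq)
  have h4 := hSU N sg w.isSg hmx m hsk ht
  have h5 : Submodule.span ℝ {Y : MN N | ∃ x : VN N, hs sg x x = 0 ∧ Y = Complex.I • Rs sg x x} ≤
      (rN2 A (der 𝔮) φ φ').comap (LinearMap.inl ℝ (MN N) (MN N')) := by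
    refine Submodule.span_le.mpr ?_
    rintro Y ⟨x, hx, rfl⟩
    exact h3 x hx
  exact h5 h4

/-- an element of the derived algebra which is prescribed at one place and zero at the others -/
theorem one_place (hSU : G_SU) (hPA : G_PA) (hRR : G_RR) (hSL : G_SL) {z : Module.End ℚ A.H1}
    {Sg : Finset ℝ} (H : HG A z Sg) (N : Sg → ℕ) (sg : ∀ a, Fin (N a) → ℝ)
    (φ : ∀ a, VN (N a) →ₗ[ℝ] (Fin g → ℂ)) (w : ∀ a : Sg, WN A z a.1 (N a) (sg a) (φ a))
    {𝔮 : Submodule ℚ (Module.End ℚ A.H1)} (hq : A.Full 𝔮) (al : Sg) (T : Finset Sg)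
    (hT : al ∉ T) : ∀ m : MN (N al), IsSks (sg al) m → m.trace = 0 →
      ∃ y ∈ spE A (der 𝔮 : Set (Module.End ℚ A.H1)), (∀ x, y (φ al x) = φ al (m *ᵥ x)) ∧
        ∀ be ∈ T, ∀ x, y (φ be x) = 0 := by
  have hr := hRR g A z al.1 (H.hq al.1 al.2) (N al) (sg al) (φ al) (w al) 𝔮 hq
  have hB := H.big al.1 al.2 (N al) (sg al) (φ al) (w al)
  induction T using Finset.induction_on with
  | empty =>
    intro m hs ht
    obtain ⟨y, hy, h1⟩ := full_mem hSU (w al).isSg hB.1 (hB.2 𝔮 hq) hs ht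
    exact ⟨y, hy, h1, fun be hbe => absurd hbe (Finset.notMem_empty be)⟩
  | insert be T hbe ih =>
    have hne : al.1 ≠ be.1 := fun h0 => hT (by
      rw [Subtype.ext h0]
      exact Finset.mem_insert_self _ _)
    have ih' := ih fun h0 => hT (Finset.mem_insert_of_mem h0)
    intro m hs ht
    have h1 := hr.perf (full_mem hSU (w al).isSg hB.1 (hB.2 𝔮 hq) hs ht)
    clear hs ht
    induction h1 using Submodule.span_induction with
    | mem m hm =>
      obtain ⟨X, hX, Y, hY, rfl⟩ := hm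
      obtain ⟨y1, hy1, e1, k1⟩ := ih' X (hr.sk X hX) (trace_zero hr hX)
      obtain ⟨y2, hy2, e2, k2⟩ := pair hSU hPA hRR hSL H al.2 be.2 hne (w al) (w be) hq
        (hr.sk Y hY) (trace_zero hr hY)
      refine ⟨y1 * y2 - y2 * y1, der_br hq y1 hy1 y2 hy2, fun x => ?_, fun t ht x => ?_⟩
      · have e2' : ∀ x, y2 (φ al x) = φ al (Y *ᵥ x) := e2
        rw [LinearMap.sub_apply, Module.End.mul_apply, Module.End.mul_apply, e2', e1, e1, e2',
          ← map_sub, Matrix.mulVec_mulVec, Matrix.mulVec_mulVec, ← Matrix.sub_mulVec]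
      · rw [LinearMap.sub_apply, Module.End.mul_apply, Module.End.mul_apply]
        rcases Finset.mem_insert.mp ht with rfl | ht
        · have k2' : ∀ x, y2 (φ t x) = 0 := fun x => by
            rw [k2, Matrix.zero_mulVec, map_zero]
          obtain ⟨m1, hm1⟩ := mat_spE (H.hq t.1 t.2) (w t) (der_spE hq hy1)
          rw [k2', map_zero, hm1, k2', sub_zero]
        · obtain ⟨m2, hm2⟩ := mat_spE (H.hq t.1 t.2) (w t) (der_spE hq hy2)
          rw [k1 t ht, map_zero, hm2, k1 t ht, sub_zero]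
    | zero =>
      exact ⟨0, Submodule.zero_mem _, fun x => by
        rw [LinearMap.zero_apply, Matrix.zero_mulVec, map_zero], fun t _ x => by
        rw [LinearMap.zero_apply]⟩
    | add a b _ _ ha hb =>
      obtain ⟨ya, hya, ea, ka⟩ := ha
      obtain ⟨yb, hyb, eb, kb⟩ := hb
      exact ⟨ya + yb, Submodule.add_mem _ hya hyb, fun x => by
        rw [LinearMap.add_apply, Matrix.add_mulVec, map_add, ea, eb], fun t ht x => by
        rw [LinearMap.add_apply, ka t ht, kb t ht, add_zero]⟩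
    | smul c a _ ha =>
      obtain ⟨ya, hya, ea, ka⟩ := ha
      exact ⟨c • ya, Submodule.smul_mem _ c hya, fun x => by
        rw [LinearMap.smul_apply, Matrix.smul_mulVec, map_smul, ea], fun t ht x => by
        rw [LinearMap.smul_apply, ka t ht, smul_zero]⟩

theorem main : G_SU → G_PA → G_WA → G_WB → G_RR → G_SL → Pool.Agent.N208.BT.G_SJ := by
  intro hSU hPA hWA hWB hRR hSL g A z Sg H 𝔮 hq X hX
  have h1 : ∀ a : Sg, ∃ (N : ℕ) (sg : Fin N → ℝ) (φ : VN N →ₗ[ℝ] (Fin g → ℂ)),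
      WN A z a.1 N sg φ := by
    intro a
    obtain ⟨W, hW⟩ := hWA g A z a.1 (H.hq a.1 a.2)
    exact hWB g A z a.1 (H.hq a.1 a.2) W hW
  choose N sg φ w using h1
  have hXN : X ∈ spE A (A.NA : Set (Module.End ℚ A.H1)) := der_spE full_NA hX
  have h2 : ∀ a : Sg, ∃ m : MN (N a), ∀ x, X (φ a x) = φ a (m *ᵥ x) := fun a =>
    mat_spE (H.hq a.1 a.2) (w a) hXN
  choose m hm using h2
  have h3 : ∀ a : Sg, ∃ y ∈ spE A (der 𝔮 : Set (Module.End ℚ A.H1)),
      (∀ x, y (φ a x) = φ a (m a *ᵥ x)) ∧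
        ∀ be ∈ (Finset.univ : Finset Sg).erase a, ∀ x, y (φ be x) = 0 := by
    intro a
    have hr := hRR g A z a.1 (H.hq a.1 a.2) (N a) (sg a) (φ a) (w a) A.NA full_NA
    have hma : m a ∈ rN A (der A.NA) (φ a) := ⟨X, hX, hm a⟩
    exact one_place hSU hPA hRR hSL H N sg φ w hq a _ (Finset.notMem_erase a _) (m a)
      (hr.sk _ hma) (trace_zero hr hma)
  choose y hy e k using h3
  refine ⟨∑ a, y a, Submodule.sum_mem _ fun a _ => hy a, fun al hal x hx => ?_⟩
  have hsum : ∑ a, y a ∈ spE A (A.NA : Set (Module.End ℚ A.H1)) :=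
    Submodule.sum_mem _ fun a _ => der_spE hq (hy a)
  have h5 := (w ⟨al, hal⟩).gen (X - ∑ a, y a)
    (fun P hP => spE_comm (Submodule.sub_mem _ hXN hsum) hP)
    (fun u => by
      rw [LinearMap.sub_apply, LinearMap.sum_apply, Finset.sum_eq_single ⟨al, hal⟩, e, hm,
        sub_self]
      · intro b _ hb
        exact k b ⟨al, hal⟩ (Finset.mem_erase.mpr ⟨fun h => hb h.symm, Finset.mem_univ _⟩) u
      · intro h
        exact absurd (Finset.mem_univ _) h)
    x hx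
  rw [LinearMap.sub_apply, sub_eq_zero] at h5
  exact h5

end Pool.Agent.N441.BGSJ
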