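import Pool.Agent.N208.LC.Stm2

/-!
# LC/DESC: descent of products of bilinear forms from the complex to the rational numbers
(helper441, for helper208)
-/

set_option autoImplicit false

noncomputable section

namespace Pool.Agent.N441.LCDESC

open Module TensorProduct Pool.Agent.H204R3.SP Pool.Agent.N208.LC

/-- the product of bilinear forms, for a pairing of the variables -/
theorem pf_ex {W ι : Type} [AddCommGroup W] [Module ℚ W] {k : ℕ} (ε : Fin k × Fin 2 ≃ ι)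
    (q : Fin k → W →ₗ[ℚ] W →ₗ[ℚ] ℚ) : ∃ ψ : MultilinearMap ℚ (fun _ : ι => W) ℚ,
      ∀ v, ψ v = ∏ i, q i (v (ε (i, 0))) (v (ε (i, 1))) :=
  ⟨(Pool.Agent.H204R3.CM.prodMap (fun i : Fin k => bil2 (q i))).domDomCongr ε, fun _ => rfl⟩

theorem main : S_DESC := by
  intro W _ _ _ ν _ _ β ι _ _ k Q φ hφ
  obtain ⟨S, hS⟩ : ∃ S : Set ((ι → W) → ℚ),
      S = {s | ∃ ψ ∈ PrB ι k (Q : Set (W →ₗ[ℚ] W →ₗ[ℚ] ℚ)), s = fun v => ψ v} := ⟨_, rfl⟩
  let res : MultilinearMap ℂ (fun _ : ι => ℂ ⊗[ℚ] W) ℂ →ₗ[ℂ] ((ι → W) → ℂ) :=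
    { toFun := fun F v => F (fun l => (1 : ℂ) ⊗ₜ[ℚ] v l)
      map_add' := fun _ _ => rfl
      map_smul' := fun _ _ => rfl }
  have h2 : res (bcm (Ω := ℂ) β φ) = fun v => algebraMap ℚ ℂ (φ v) := by
    funext v
    exact bcm_one β φ v
  have h3 : (fun v => algebraMap ℚ ℂ (φ v)) ∈ Submodule.span ℂ
      {g : (ι → W) → ℂ | ∃ s ∈ S, g = fun x => algebraMap ℚ ℂ (s x)} := by
    rw [← h2]
    refine (?_ : (Submodule.span ℂ (PrB ι k ((Submodule.span ℂ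
      {γ : (ℂ ⊗[ℚ] W) →ₗ[ℂ] (ℂ ⊗[ℚ] W) →ₗ[ℂ] ℂ | ∃ q ∈ Q,
        γ = LinearMap.BilinForm.baseChange ℂ q} :
        Submodule ℂ ((ℂ ⊗[ℚ] W) →ₗ[ℂ] (ℂ ⊗[ℚ] W) →ₗ[ℂ] ℂ)) :
        Set ((ℂ ⊗[ℚ] W) →ₗ[ℂ] (ℂ ⊗[ℚ] W) →ₗ[ℂ] ℂ)))).map res ≤ _)
      (Submodule.mem_map_of_mem hφ)
    rw [Submodule.map_span, Submodule.span_le]
    rintro _ ⟨ψ, ⟨ε, c, hc, hψ⟩, rfl⟩
    obtain ⟨M, hM⟩ : ∃ M : Fin k → Set ((ι → W) → ℂ), M = fun i => {g | ∃ q ∈ Q,
      g = fun v => algebraMap ℚ ℂ (q (v (ε (i, 0))) (v (ε (i, 1))))} := ⟨_, rfl⟩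
    have hb : ∀ i, (fun v : ι → W => c i ((1 : ℂ) ⊗ₜ[ℚ] v (ε (i, 0)))
        ((1 : ℂ) ⊗ₜ[ℚ] v (ε (i, 1)))) ∈ Submodule.span ℂ (M i) := by
      intro i
      refine Submodule.span_induction (p := fun c _ => (fun v : ι → W =>
        c ((1 : ℂ) ⊗ₜ[ℚ] v (ε (i, 0))) ((1 : ℂ) ⊗ₜ[ℚ] v (ε (i, 1)))) ∈
          Submodule.span ℂ (M i)) ?_ ?_ ?_ ?_ (hc i)
      · rintro _ ⟨q, hq, rfl⟩
        refine Submodule.subset_span ?_
        rw [hM]
        refine ⟨q, hq, ?_⟩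
        funext v
        exact bcb_one q _ _
      · exact Submodule.zero_mem _
      · intro x y _ _ hx hy
        exact Submodule.add_mem _ hx hy
      · intro a x _ hx
        exact Submodule.smul_mem _ a hx
    have hprod : ∀ s : Finset (Fin k), (∏ i ∈ s, (fun v : ι → W =>
        c i ((1 : ℂ) ⊗ₜ[ℚ] v (ε (i, 0))) ((1 : ℂ) ⊗ₜ[ℚ] v (ε (i, 1))))) ∈
          ∏ i ∈ s, Submodule.span ℂ (M i) := by
      intro s
      induction s using Finset.induction_on with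
      | empty =>
        rw [Finset.prod_empty, Finset.prod_empty]
        exact Submodule.one_le.1 le_rfl
      | insert i s hi ih =>
        rw [Finset.prod_insert hi, Finset.prod_insert hi]
        exact Submodule.mul_mem_mul (hb i) ih
    have h5 : res ψ = ∏ i, (fun v : ι → W => c i ((1 : ℂ) ⊗ₜ[ℚ] v (ε (i, 0)))
        ((1 : ℂ) ⊗ₜ[ℚ] v (ε (i, 1)))) := by
      funext v
      rw [Finset.prod_apply]
      exact hψ _
    have h6 := hprod Finset.univ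
    rw [Submodule.prod_span, ← h5] at h6
    refine Submodule.span_mono ?_ h6
    intro g hg
    rw [Set.mem_finsetProd] at hg
    obtain ⟨f, hf, rfl⟩ := hg
    have hf' : ∀ i, ∃ q ∈ Q, f i = fun v => algebraMap ℚ ℂ (q (v (ε (i, 0))) (v (ε (i, 1)))) := by
      intro i
      have h7 := hf (Finset.mem_univ i)
      rw [hM] at h7
      exact h7
    choose q hq hq2 using hf'
    obtain ⟨ψ', hψ'⟩ := pf_ex ε q
    refine ⟨fun v => ψ' v, ?_, ?_⟩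
    · rw [hS]
      exact ⟨ψ', ⟨ε, q, hq, hψ'⟩, rfl⟩
    · funext v
      beta_reduce
      rw [Finset.prod_apply, hψ', map_prod]
      exact Finset.prod_congr rfl fun i _ => by rw [hq2]
  have h4 := span_descent_k _ _ h3
  let emb : MultilinearMap ℚ (fun _ : ι => W) ℚ →ₗ[ℚ] ((ι → W) → ℚ) :=
    { toFun := fun F v => F v
      map_add' := fun _ _ => rfl
      map_smul' := fun _ _ => rfl }
  have h5 : Submodule.span ℚ S =
      (Submodule.span ℚ (PrB ι k (Q : Set (W →ₗ[ℚ] W →ₗ[ℚ] ℚ)))).map emb := by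
    rw [Submodule.map_span]
    congr 1
    rw [hS]
    ext s
    constructor
    · rintro ⟨ψ, hψ, rfl⟩
      exact ⟨ψ, hψ, rfl⟩
    · rintro ⟨ψ, hψ, rfl⟩
      exact ⟨ψ, hψ, rfl⟩
  rw [h5] at h4
  obtain ⟨φ', hφ', hφφ⟩ := h4
  have h6 : φ' = φ := MultilinearMap.ext fun v => congrFun hφφ v
  rwa [← h6]

end Pool.Agent.N441.LCDESC
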