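import Pool.Agent.N979.P1.Stm
import Pool.Agent.N526.CP.RAD
import Pool.Agent.N526.CP.SPH
import Pool.Agent.N526.CP.MON

/-!
# P1/LIMP: the limit `s → 1`, `c → 1`
-/

set_option autoImplicit false

open MeasureTheory Metric Set Filter Topology

namespace Pool.Agent.N441.P1_LIMP

open Pool.Agent.H241R3.FV Pool.Agent.N526.CP Pool.Agent.N979.P1

theorem rad : S_RAD := RAD.t SPH.t (MON.t SPH.t)

theorem rad_cont : ContinuousOn (zf 1) (Icc 0 1) := (rad 1 le_rfl).2.2.1

/-- the weight -/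
noncomputable def w (s v : ℝ) : ℝ := s * (√(1 - (s * Real.cos v) ^ 2))⁻¹ * Real.sin v

theorem one_sub_pos {s : ℝ} (h0 : 0 < s) (h1 : s < 1) (v : ℝ) : 0 < 1 - (s * Real.cos v) ^ 2 := by
  have h2 : (Real.cos v) ^ 2 ≤ 1 := Real.cos_sq_le_one v
  have h3 : s ^ 2 < 1 := by nlinarith
  rw [mul_pow]
  nlinarith [sq_nonneg s]

theorem w_nonneg {s : ℝ} (h0 : 0 < s) {v : ℝ} (hv : v ∈ Icc 0 Real.pi) : 0 ≤ w s v := by
  have := Real.sin_nonneg_of_mem_Icc hv
  unfold w
  positivity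

theorem w_le {s : ℝ} (h0 : 0 < s) (h1 : s < 1) {v : ℝ} (hv : v ∈ Icc 0 Real.pi) : w s v ≤ 1 := by
  have h2 := Real.sin_nonneg_of_mem_Icc hv
  have h3 := one_sub_pos h0 h1 v
  have h4 : Real.sin v ≤ √(1 - (s * Real.cos v) ^ 2) := by
    apply Real.le_sqrt_of_sq_le
    have h5 := Real.sin_sq_add_cos_sq v
    rw [mul_pow]
    have h6 : s ^ 2 ≤ 1 := by nlinarith
    nlinarith [sq_nonneg (Real.cos v)]
  have h5 : 0 < √(1 - (s * Real.cos v) ^ 2) := Real.sqrt_pos.2 h3
  have h6 : (√(1 - (s * Real.cos v) ^ 2))⁻¹ * Real.sin v ≤ 1 := by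
    rw [inv_mul_le_iff₀ h5, mul_one]
    exact h4
  have h7 : 0 ≤ (√(1 - (s * Real.cos v) ^ 2))⁻¹ * Real.sin v := by positivity
  unfold w
  rw [mul_assoc]
  nlinarith

theorem continuous_w {s : ℝ} (h0 : 0 < s) (h1 : s < 1) : Continuous (w s) := by
  unfold w
  refine (continuous_const.mul (Continuous.inv₀ (by fun_prop) fun v => ?_)).mul Real.continuous_sin
  exact (Real.sqrt_pos.2 (one_sub_pos h0 h1 v)).ne'

theorem tendsto_w {v : ℝ} (hv : v ∈ Ioo 0 Real.pi) :
    Tendsto (fun s => w s v) (𝓝[<] 1) (𝓝 1) := by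
  have h1 : 0 < Real.sin v := Real.sin_pos_of_mem_Ioo hv
  have h2 : √(1 - (1 * Real.cos v) ^ 2) = Real.sin v := by
    rw [one_mul, ← Real.sin_sq, Real.sqrt_sq h1.le]
  have h3 : ContinuousAt (fun s => w s v) 1 := by
    unfold w
    refine (continuousAt_id.mul (ContinuousAt.inv₀ (by fun_prop) ?_)).mul continuousAt_const
    rw [h2]
    exact h1.ne'
  have h4 : w 1 v = 1 := by
    unfold w
    rw [h2, one_mul, inv_mul_cancel₀ h1.ne']
  have h5 := h3.tendsto
  rw [h4] at h5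
  exact h5.mono_left nhdsWithin_le_nhds

/-- the point of the circle of radius `r` -/
noncomputable def pt (r v : ℝ) : E 2 := !₂[r * Real.cos v, r * Real.sin v]

theorem norm_pt_sub (r r' v : ℝ) : ‖pt r v - pt r' v‖ = |r - r'| := by
  rw [EuclideanSpace.norm_eq, Fin.sum_univ_two]
  simp only [pt, PiLp.sub_apply, PiLp.toLp_apply, Matrix.cons_val_zero, Matrix.cons_val_one,
    Real.norm_eq_abs, sq_abs]
  have h1 : (r * Real.cos v - r' * Real.cos v) ^ 2 + (r * Real.sin v - r' * Real.sin v) ^ 2 =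
      (r - r') ^ 2 := by
    have h5 := Real.sin_sq_add_cos_sq v
    have : (r * Real.cos v - r' * Real.cos v) ^ 2 + (r * Real.sin v - r' * Real.sin v) ^ 2 =
      (r - r') ^ 2 * (Real.sin v ^ 2 + Real.cos v ^ 2) := by ring
    rw [this, h5, mul_one]
  rw [h1, Real.sqrt_sq_eq_abs]

theorem continuous_pt (r : ℝ) : Continuous (pt r) := by
  unfold pt
  refine (PiLp.continuous_toLp 2 _).comp ?_
  refine continuous_pi fun i => ?_
  fin_cases i
  · simp only [Fin.zero_eta, Matrix.cons_val_zero]; fun_prop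
  · simp only [Fin.mk_one, Matrix.cons_val_one]; fun_prop

/-- the substitution -/
theorem Vk_eq (k : E 2 → ℝ) (hk : Continuous k) {s c : ℝ} (h0 : 0 < s) (h1 : s < 1) :
    Vk k s c = 2 * ∫ v in (0 : ℝ)..Real.pi, w s v * k (pt (c * zf 1 s) v) := by
  unfold Vk
  congr 1
  set g : ℝ → ℝ := fun x => s * (√(1 - (s * x) ^ 2))⁻¹ *
    k !₂[c * zf 1 s * x, c * zf 1 s * √(1 - x ^ 2)] with hg
  have hgc : ContinuousOn g (Real.cos '' uIcc 0 Real.pi) := by
    rw [hg]
    refine ContinuousOn.mul (continuousOn_const.mul (ContinuousOn.inv₀ (by fun_prop) ?_)) ?_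
    · rintro _ ⟨v, -, rfl⟩
      exact (Real.sqrt_pos.2 (one_sub_pos h0 h1 v)).ne'
    · refine (hk.comp ?_).continuousOn
      refine (PiLp.continuous_toLp 2 _).comp ?_
      refine continuous_pi fun i => ?_
      fin_cases i
      · simp only [Fin.zero_eta, Matrix.cons_val_zero]; fun_prop
      · simp only [Fin.mk_one, Matrix.cons_val_one]; fun_prop
  have h2 := intervalIntegral.integral_comp_mul_deriv' (a := 0) (b := Real.pi) (f := Real.cos)
    (f' := fun v => -Real.sin v) (g := g) (fun v _ => Real.hasDerivAt_cos v)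
    (Real.continuous_sin.neg.continuousOn) hgc
  rw [Real.cos_zero, Real.cos_pi] at h2
  rw [intervalIntegral.integral_symm, ← h2, ← intervalIntegral.integral_neg]
  refine intervalIntegral.integral_congr fun v hv => ?_
  rw [uIcc_of_le Real.pi_pos.le] at hv
  have h3 := Real.sin_nonneg_of_mem_Icc hv
  have h4 : √(1 - Real.cos v ^ 2) = Real.sin v := by
    rw [← Real.sin_sq, Real.sqrt_sq h3]
  simp only [hg, Function.comp_apply, h4, w, pt]
  ring

theorem main (h : S_ZF1) : S_LIMP := by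
  rintro k ⟨K, hK⟩ ε hε
  have hk : Continuous k := hK.continuous
  set A : ℝ := ∫ v in (0 : ℝ)..Real.pi, k (pt (2 / Real.pi) v) with hA
  have hpi := Real.pi_pos
  have hlim : Tendsto (fun s => ∫ v in (0 : ℝ)..Real.pi, w s v * k (pt (2 / Real.pi) v)) (𝓝[<] 1)
      (𝓝 A) := by
    have hev : ∀ᶠ s in 𝓝[<] (1 : ℝ), 0 < s ∧ s < 1 := by
      have h1 : Ioo (0 : ℝ) 1 ∈ 𝓝[<] (1 : ℝ) := Ioo_mem_nhdsLT one_pos
      exact h1
    have hkc : Continuous fun v => k (pt (2 / Real.pi) v) := hk.comp (continuous_pt _)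
    refine intervalIntegral.tendsto_integral_filter_of_dominated_convergence
      (fun v => |k (pt (2 / Real.pi) v)|) ?_ ?_ ?_ ?_
    · filter_upwards [hev] with s hs
      exact ((continuous_w hs.1 hs.2).mul hkc).aestronglyMeasurable
    · filter_upwards [hev] with s hs
      refine ae_of_all _ fun v hv => ?_
      rw [uIoc_of_le hpi.le] at hv
      have hv' : v ∈ Icc 0 Real.pi := ⟨hv.1.le, hv.2⟩
      rw [Real.norm_eq_abs, abs_mul, abs_of_nonneg (w_nonneg hs.1 hv')]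
      have h2 := w_le hs.1 hs.2 hv'
      have h3 := abs_nonneg (k (pt (2 / Real.pi) v))
      nlinarith
    · exact hkc.abs.intervalIntegrable _ _
    · have h1 : ∀ᵐ v ∂(volume : Measure ℝ), v ≠ Real.pi :=
        compl_mem_ae_iff.2 (measure_singleton Real.pi)
      filter_upwards [h1] with v hv hv'
      rw [uIoc_of_le hpi.le] at hv'
      have h2 : v ∈ Ioo 0 Real.pi := ⟨hv'.1, lt_of_le_of_ne hv'.2 hv⟩
      have h3 := (tendsto_w h2).mul_const (k (pt (2 / Real.pi) v))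
      rwa [one_mul] at h3
  set δ : ℝ := ε / (8 * (K * Real.pi + 1)) with hδ
  have hK0 : (0 : ℝ) ≤ K := K.2
  have hδ0 : 0 < δ := by positivity
  have hz : Tendsto (zf 1) (𝓝[<] 1) (𝓝 (2 / Real.pi)) := by
    rw [← h]
    have h1 := rad_cont 1 (by simp)
    refine h1.tendsto.mono_left ?_
    have h2 : 𝓝[<] (1 : ℝ) = 𝓝[Ioo 0 1] 1 := (nhdsWithin_Ioo_eq_nhdsLT one_pos).symm
    rw [h2]
    exact nhdsWithin_mono _ Ioo_subset_Icc_self
  have e1 : ∀ᶠ s in 𝓝[<] (1 : ℝ), |(∫ v in (0 : ℝ)..Real.pi, w s v * k (pt (2 / Real.pi) v)) - A| <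
      ε / 8 := by
    have := (Metric.tendsto_nhds.1 hlim) (ε / 8) (by positivity)
    simpa [Real.dist_eq] using this
  have e2 : ∀ᶠ s in 𝓝[<] (1 : ℝ), |zf 1 s - 2 / Real.pi| < δ := by
    have := (Metric.tendsto_nhds.1 hz) δ hδ0
    simpa [Real.dist_eq] using this
  have e3 : ∀ᶠ s in 𝓝[<] (1 : ℝ), 0 < s ∧ s < 1 := by
    have h1 : Ioo (0 : ℝ) 1 ∈ 𝓝[<] (1 : ℝ) := Ioo_mem_nhdsLT one_pos
    exact h1
  obtain ⟨s, ⟨h1, h2⟩, hs0, hs1⟩ := ((e1.and e2).and e3).exists
  refine ⟨s, hs0, hs1, 1 - δ / (|zf 1 s| + 1), ?_, fun c hc hc0 hc1 => ?_⟩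
  · have : 0 < δ / (|zf 1 s| + 1) := by positivity
    linarith
  rw [Vk_eq k hk hs0 hs1]
  have h3 : |c * zf 1 s - 2 / Real.pi| ≤ 2 * δ := by
    have h4 : |c * zf 1 s - 2 / Real.pi| ≤ |c * zf 1 s - zf 1 s| + |zf 1 s - 2 / Real.pi| :=
      abs_sub_le _ _ _
    have h5 : |c * zf 1 s - zf 1 s| ≤ δ := by
      have h6 : c * zf 1 s - zf 1 s = -((1 - c) * zf 1 s) := by ring
      rw [h6, abs_neg, abs_mul, abs_of_pos (by linarith : 0 < 1 - c)]
      have h7 : 1 - c ≤ δ / (|zf 1 s| + 1) := by linarith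
      have h8 : 0 ≤ |zf 1 s| := abs_nonneg _
      calc (1 - c) * |zf 1 s| ≤ δ / (|zf 1 s| + 1) * |zf 1 s| :=
            mul_le_mul_of_nonneg_right h7 h8
        _ ≤ δ / (|zf 1 s| + 1) * (|zf 1 s| + 1) :=
            mul_le_mul_of_nonneg_left (by linarith) (by positivity)
        _ = δ := by field_simp
    linarith
  have h4 : |(∫ v in (0 : ℝ)..Real.pi, w s v * k (pt (c * zf 1 s) v)) -
      ∫ v in (0 : ℝ)..Real.pi, w s v * k (pt (2 / Real.pi) v)| ≤ ε / 4 := by
    rw [← intervalIntegral.integral_sub]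
    · have h5 : ∀ v ∈ uIoc 0 Real.pi, ‖w s v * k (pt (c * zf 1 s) v) -
          w s v * k (pt (2 / Real.pi) v)‖ ≤ K * (2 * δ) := by
        intro v hv
        rw [uIoc_of_le hpi.le] at hv
        have hv' : v ∈ Icc 0 Real.pi := ⟨hv.1.le, hv.2⟩
        rw [← mul_sub, Real.norm_eq_abs, abs_mul, abs_of_nonneg (w_nonneg hs0 hv')]
        have h6 := w_le hs0 hs1 hv'
        have h7 : |k (pt (c * zf 1 s) v) - k (pt (2 / Real.pi) v)| ≤
            K * |c * zf 1 s - 2 / Real.pi| := by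
          have h8 := hK.dist_le_mul (pt (c * zf 1 s) v) (pt (2 / Real.pi) v)
          rw [Real.dist_eq, dist_eq_norm, norm_pt_sub] at h8
          exact h8
        have h9 : K * |c * zf 1 s - 2 / Real.pi| ≤ K * (2 * δ) :=
          mul_le_mul_of_nonneg_left h3 hK0
        have h10 := abs_nonneg (k (pt (c * zf 1 s) v) - k (pt (2 / Real.pi) v))
        nlinarith
      have h6 := intervalIntegral.norm_integral_le_of_norm_le_const h5
      rw [Real.norm_eq_abs, sub_zero, abs_of_pos hpi] at h6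
      refine h6.trans ?_
      have h7 : (K : ℝ) * (2 * δ) * Real.pi = ε / 4 * (K * Real.pi / (K * Real.pi + 1)) := by
        rw [hδ]
        field_simp
        ring
      rw [h7]
      have h8 : (K : ℝ) * Real.pi / (K * Real.pi + 1) ≤ 1 := by
        rw [div_le_one (by positivity)]
        linarith
      nlinarith
    · exact ((continuous_w hs0 hs1).mul (hk.comp (continuous_pt _))).intervalIntegrable _ _
    · exact ((continuous_w hs0 hs1).mul (hk.comp (continuous_pt _))).intervalIntegrable _ _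
  have h5 : (∫ v in (0 : ℝ)..Real.pi, k !₂[2 / Real.pi * Real.cos v, 2 / Real.pi * Real.sin v]) =
      A := rfl
  rw [h5]
  have h6 := abs_le.1 h4
  have h7 := abs_lt.1 h1
  linarith [h6.1, h7.1]

end Pool.Agent.N441.P1_LIMP
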